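import Pool.Agent.Helper54.SAW2.Defs
import Pool.Agent.Helper54.SAW.Final

set_option autoImplicit false

/-!
# Basic facts on lists of steps and their coordinate functions
-/

namespace Pool.Agent.Helper54.SAW2

open Pool.Agent.Helper54.SAW

theorem X_app (u v : List St) : X (u ++ v) = X u + X v := by simp [X]

theorem Y_app (u v : List St) : Y (u ++ v) = Y u + Y v := by simp [Y]

theorem X_mfx (l : List St) : X (l.map fx) = -X l := Pool.Agent.Helper89.SAW.X_map_fx l

theorem Y_mfx (l : List St) : Y (l.map fx) = Y l := Pool.Agent.Helper89.SAW.Y_map_fx l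

theorem px_zero (l : List St) : px l 0 = 0 := by simp [px, X]

theorem py_zero (l : List St) : py l 0 = 0 := by simp [py, Y]

theorem px_len {l : List St} {n : ℕ} (h : l.length ≤ n) : px l n = X l := by
  unfold px
  rw [List.take_of_length_le h]

theorem take_fold_le (l : List St) {t i : ℕ} (h : i ≤ t) : (fold l t).take i = l.take i := by
  unfold fold
  rcases le_or_gt i l.length with hi | hi
  · rw [List.take_append_of_le_length (by rw [List.length_take]; omega), List.take_take,
      min_eq_left h]
  · have h1 : l.length ≤ t := by omega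
    rw [List.take_of_length_le h1, List.drop_of_length_le h1, List.map_nil, List.append_nil]

theorem px_fold (l : List St) (t : ℕ) : px (fold l t) = refl (px l) t := by
  funext i
  unfold refl
  split_ifs with h
  · unfold px
    rw [take_fold_le l h]
  · rw [not_le] at h
    unfold px fold
    rcases le_or_gt t l.length with ht | ht
    · have h1 : (l.take t ++ (l.drop t).map fx).take i =
          l.take t ++ ((l.drop t).take (i - t)).map fx := by
        rw [List.take_append, List.length_take, min_eq_left ht, List.map_take,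
          List.take_of_length_le (by rw [List.length_take]; omega)]
      have h2 : l.take i = l.take t ++ (l.drop t).take (i - t) := by
        conv_lhs => rw [show i = t + (i - t) by omega, List.take_add]
      rw [h1, h2, X_app, X_app, X_mfx]
      ring
    · rw [List.take_of_length_le ht.le, List.drop_of_length_le ht.le, List.map_nil,
        List.append_nil, List.take_of_length_le (by omega)]
      ring

theorem py_fold (l : List St) (t : ℕ) : py (fold l t) = py l := by
  funext i
  rcases le_or_gt i t with h | h
  · unfold py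
    rw [take_fold_le l h]
  · unfold py fold
    rcases le_or_gt t l.length with ht | ht
    · have h1 : (l.take t ++ (l.drop t).map fx).take i =
          l.take t ++ ((l.drop t).take (i - t)).map fx := by
        rw [List.take_append, List.length_take, min_eq_left ht, List.map_take,
          List.take_of_length_le (by rw [List.length_take]; omega)]
      have h2 : l.take i = l.take t ++ (l.drop t).take (i - t) := by
        conv_lhs => rw [show i = t + (i - t) by omega, List.take_add]
      rw [h1, h2, Y_app, Y_app, Y_mfx]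
    · rw [List.take_of_length_le ht.le, List.drop_of_length_le ht.le, List.map_nil,
        List.append_nil]

theorem length_fold' (l : List St) (t : ℕ) : (fold l t).length = l.length := by
  unfold fold
  rw [List.length_append, List.length_map, ← List.length_append, List.take_append_drop]

theorem fold_eq_mapIdx (l : List St) (t : ℕ) :
    fold l t = l.mapIdx (fun i s => if i < t then s else fx s) := by
  have h0 := length_fold' l t
  unfold fold at h0 ⊢
  apply List.ext_getElem
  · rw [h0, List.length_mapIdx]
  · intro i h1 h2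
    rw [h0] at h1
    rw [List.getElem_mapIdx, List.getElem_append]
    simp only [List.length_take, List.getElem_take, List.getElem_map, List.getElem_drop]
    by_cases h : i < t
    · rw [dif_pos (by omega), if_pos h]
    · rw [dif_neg (by omega), if_neg h]
      congr 2
      omega

theorem fx_fx' (s : St) : fx (fx s) = s := by
  revert s
  decide

theorem fold_fold' (l : List St) (t : ℕ) : fold (fold l t) t = l := by
  rw [fold_eq_mapIdx, fold_eq_mapIdx, List.mapIdx_mapIdx]
  apply List.ext_getElem
  · rw [List.length_mapIdx]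
  · intro i h1 h2
    rw [List.getElem_mapIdx]
    simp only [Function.comp]
    split_ifs <;> simp [fx_fx']

theorem fold_comm (l : List St) (s t : ℕ) : fold (fold l s) t = fold (fold l t) s := by
  simp only [fold_eq_mapIdx, List.mapIdx_mapIdx]
  apply List.ext_getElem
  · rw [List.length_mapIdx, List.length_mapIdx]
  · intro i h1 h2
    rw [List.getElem_mapIdx, List.getElem_mapIdx]
    simp only [Function.comp]
    split_ifs <;> rfl

theorem X_take_succ (l : List St) {i : ℕ} (h : i < l.length) :
    X (l.take (i + 1)) = X (l.take i) + dx l[i] := by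
  rw [List.take_add_one, X_app, List.getElem?_eq_getElem h]
  simp [X]

theorem Y_take_succ (l : List St) {i : ℕ} (h : i < l.length) :
    Y (l.take (i + 1)) = Y (l.take i) + dy l[i] := by
  rw [List.take_add_one, Y_app, List.getElem?_eq_getElem h]
  simp [Y]

theorem NN_px (l : List St) : NN (px l) (py l) l.length := by
  intro i hi
  unfold Stp px py
  rw [X_take_succ l hi, Y_take_succ l hi]
  have : ∀ s : St, (dx s = 0 ∧ (dy s = 1 ∨ dy s = -1)) ∨ (dy s = 0 ∧ (dx s = 1 ∨ dx s = -1)) := by
    decide
  rcases this l[i] with ⟨h1, h2 | h2⟩ | ⟨h1, h2 | h2⟩ <;> rw [h1, h2]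
  · left; exact ⟨by ring, Or.inl rfl⟩
  · left; exact ⟨by ring, Or.inr (by ring)⟩
  · right; exact ⟨by ring, Or.inl rfl⟩
  · right; exact ⟨by ring, Or.inr (by ring)⟩

theorem saw_iff_avoid (l : List St) : Saw l ↔ Avoid (px l) (py l) l.length := saw_iff l

theorem mem_SAWs_iff {n : ℕ} {l : List St} :
    l ∈ SAWs n ↔ l.length = n ∧ Avoid (px l) (py l) n := by
  rw [Pool.Agent.Helper54.SAW.mem_SAWs, saw_iff_avoid]
  constructor
  · rintro ⟨rfl, h⟩; exact ⟨rfl, h⟩
  · rintro ⟨rfl, h⟩; exact ⟨rfl, h⟩

theorem NN_of_mem {n : ℕ} {l : List St} (h : l ∈ SAWs n) : NN (px l) (py l) n := by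
  have := NN_px l
  rwa [(mem_SAWs_iff.1 h).1] at this

theorem mem_Far {n : ℕ} {F : ℤ} {l : List St} : l ∈ Far n F ↔ l ∈ SAWs n ∧ F ≤ px l n := by
  unfold Far
  rw [Finset.mem_filter]
  constructor
  · rintro ⟨h1, h2⟩
    refine ⟨h1, ?_⟩
    rwa [px_len (mem_SAWs_iff.1 h1).1.le]
  · rintro ⟨h1, h2⟩
    refine ⟨h1, ?_⟩
    rwa [px_len (mem_SAWs_iff.1 h1).1.le] at h2

theorem Tip.unique {x : ℕ → ℤ} {n s t : ℕ} (hs : Tip x n s) (ht : Tip x n t) : s = t := by
  obtain ⟨h1, h2, h3⟩ := hs
  obtain ⟨g1, g2, g3⟩ := ht
  rcases lt_trichotomy s t with h | h | h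
  · have := h3 t h g1
    have := g2 s h.le
    omega
  · exact h
  · have := g3 s h h1
    have := h2 t h.le
    omega

open Classical in
theorem tip_spec (n : ℕ) (l : List St) : Tip (px l) n (tip n l) := by
  have hex : ∃ m, m ≤ n ∧ ∀ i, i ≤ n → px l i ≤ px l m := by
    have := Finset.exists_max_image (Finset.range (n + 1)) (px l) ⟨0, by simp⟩
    obtain ⟨m, hm, h⟩ := this
    exact ⟨m, by rw [Finset.mem_range] at hm; omega, fun i hi => h i (by simp; omega)⟩
  obtain ⟨m, hm, h⟩ := hex
  have h1 : ∀ i, i ≤ n → px l i ≤ px l (tip n l) :=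
    Nat.findGreatest_spec (P := fun t => ∀ i, i ≤ n → px l i ≤ px l t) hm h
  have h2 : tip n l ≤ n := Nat.findGreatest_le n
  refine ⟨h2, fun i hi => h1 i (hi.trans h2), fun i hi hin => ?_⟩
  have h3 := Nat.findGreatest_is_greatest (P := fun t => ∀ i, i ≤ n → px l i ≤ px l t) hi hin
  by_contra h4
  exact h3 (fun j hj => (h1 j hj).trans (not_lt.1 h4))

theorem mem_NearP {n M R : ℕ} {l : List St} : l ∈ NearP n M R ↔ l ∈ SAWs n ∧
    (M : ℤ) ≤ px l (tip n l) ∧ |px l n| ≤ R ∧ py l (tip n l - 1) = py l (tip n l) + 1 := by
  unfold NearP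
  rw [Finset.mem_filter]

theorem tip_pos {n M R : ℕ} {l : List St} (hM : 1 ≤ M) (h : l ∈ NearP n M R) : 0 < tip n l := by
  rw [mem_NearP] at h
  rcases Nat.eq_zero_or_pos (tip n l) with h0 | h0
  · have h1 := h.2.1
    rw [h0, px_zero] at h1
    omega
  · exact h0

/-- unfolding a near walk at its tip gives a far walk -/
theorem unfold_tip {n M R : ℕ} (hM : R ≤ M) {l : List St} (h : l ∈ NearP n M R) :
    fold l (tip n l) ∈ Far n M ∧ RTog (px (fold l (tip n l))) (tip n l) ∧
      LTog (px (fold l (tip n l))) n (tip n l) := by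
  rw [mem_NearP] at h
  obtain ⟨h1, h2, h3, h4⟩ := h
  obtain ⟨t1, t2, t3⟩ := tip_spec n l
  set t := tip n l with ht
  obtain ⟨hl, hav⟩ := mem_SAWs_iff.1 h1
  rw [px_fold]
  refine ⟨?_, ?_, ?_⟩
  · rw [mem_Far, mem_SAWs_iff, px_fold, py_fold, length_fold']
    refine ⟨⟨hl, ?_⟩, ?_⟩
    · intro i j hij hj hxy
      unfold refl at hxy
      have := hav i j hij hj
      by_cases hi : i ≤ t <;> by_cases hj' : j ≤ t
      · rw [if_pos hi, if_pos hj'] at hxy
        exact this hxy
      · rw [if_pos hi, if_neg hj'] at hxy
        have e1 := t2 i hi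
        have e2 := t3 j (by omega) hj
        omega
      · omega
      · rw [if_neg hi, if_neg hj'] at hxy
        exact this ⟨by omega, hxy.2⟩
    · unfold refl
      have e1 : -(R : ℤ) ≤ px l n ∧ px l n ≤ R := abs_le.1 h3
      split_ifs with hn
      · have : t = n := le_antisymm t1 hn
        rw [this] at h2
        exact h2
      · have : (R : ℤ) ≤ M := by exact_mod_cast hM
        omega
  · intro i hi
    unfold refl
    rw [if_pos hi, if_pos le_rfl]
    exact t2 i hi
  · intro i hi hin
    unfold refl
    rw [if_pos le_rfl, if_neg (by omega)]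
    have := t3 i hi hin
    omega

end Pool.Agent.Helper54.SAW2
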