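import Pool.Agent.Helper54.SAW2.Stmts

set_option autoImplicit false

/-!
# Block 8: the classes are small
-/

namespace Pool.Agent.Helper54.SAW2

open Pool.Agent.Helper54.SAW

theorem mem_clsA {n M R a θ : ℕ} {l : List St} : l ∈ clsA n M R a θ ↔
    l ∈ NearP n M R ∧ a ≤ DA n R l ∧ DA n R l < a + θ ∧ a ≤ DB n R l := by
  unfold clsA
  rw [Finset.mem_filter]

theorem mem_clsB {n M R a θ : ℕ} {l : List St} : l ∈ clsB n M R a θ ↔
    l ∈ NearP n M R ∧ a ≤ DB n R l ∧ DB n R l < a + θ ∧ a ≤ DA n R l := by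
  unfold clsB
  rw [Finset.mem_filter]

theorem refl_refl_end (x : ℕ → ℤ) {n p q : ℕ} (hpq : p < q) (hqn : q ≤ n) :
    refl (refl x p) q n = 2 * x p - 2 * x q + x n := by
  unfold refl
  rcases Nat.lt_or_ge q n with h | h
  · rw [if_neg (by omega), if_neg (by omega), if_neg (by omega)]
    ring
  · have : q = n := le_antisymm hqn h
    subst this
    rw [if_pos le_rfl, if_neg (by omega)]
    ring

theorem rtog_refl2 (x : ℕ → ℤ) {p q : ℕ} (hpq : p < q) (h : RTog x p) :
    RTog (refl (refl x p) q) p := by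
  intro i hi
  unfold refl
  rw [if_pos (by omega), if_pos hi, if_pos (by omega), if_pos le_rfl]
  exact h i hi

theorem ltog_refl2 (x : ℕ → ℤ) {n p q : ℕ} (hpq : p < q) (h : LTog x n q) :
    LTog (refl (refl x p) q) n q := by
  intro i hi hin
  unfold refl
  rw [if_pos le_rfl, if_neg (by omega), if_neg (by omega), if_neg (by omega)]
  have := h i hi hin
  omega

theorem dA_le (c0 : ℕ) (x : ℕ → ℤ) (t : ℕ) : dA c0 x t ≤ (x t - c0).toNat := by
  classical
  unfold dA
  exact Nat.findGreatest_le _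

theorem refl_end (x : ℕ → ℤ) {n q : ℕ} (hqn : q ≤ n) : refl x q n = 2 * x q - x n := by
  unfold refl
  split_ifs with h
  · have : q = n := le_antisymm hqn h
    subst this
    ring
  · rfl

theorem cardA (hAbs : AbstractS) (hCl : ClassAS) : CardAS := by
  intro n M R a θ K hM hθ hK ha
  refine hAbs n fold fold_fold' fold_comm (fun l t => RTog (px l) t) (fun l t => LTog (px l) n t)
    (dep n) (Far n M) (clsA n M R a θ) K θ hθ hK (tip n) ?_ ?_
  · intro P hP
    rw [mem_clsA] at hP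
    obtain ⟨h1, h2, h3⟩ := unfold_tip (by omega : R ≤ M) hP.1
    refine ⟨(tip_spec n P).1, h1, h2, h3, ?_⟩
    unfold dep
    simp
  · intro δ hδ x y hxy hyn hR hL hPx hPy hdep
    rw [mem_clsA] at hPx hPy
    obtain ⟨hPx1, hPx2, hPx3, hPx4⟩ := hPx
    obtain ⟨hPy1, hPy2, hPy3, hPy4⟩ := hPy
    have hMpos : 1 ≤ M := by omega
    have htx := tip_pos hMpos hPx1
    have hty := tip_pos hMpos hPy1
    have hsx := tip_spec n (fold δ x)
    have hsy := tip_spec n (fold δ y)
    rw [mem_NearP] at hPx1 hPy1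
    obtain ⟨hx1, hx2, hx3, hx4⟩ := hPx1
    obtain ⟨hy1, hy2, hy3, hy4⟩ := hPy1
    rw [mem_Far] at hδ
    have hN := NN_of_mem hδ.1
    have hlen := (mem_SAWs_iff.1 hδ.1).1
    rw [mem_SAWs_iff] at hx1 hy1
    unfold DA at hPx2 hPx3 hPy2 hPy3
    unfold DB at hPx4 hPy4
    unfold dep at hdep
    rw [px_fold] at hsx hsy hx2 hx3 hy2 hy3 hPx2 hPx3 hPy2 hPy3 hPx4 hPy4 hdep
    rw [py_fold] at hx4 hy4
    rw [px_fold, py_fold] at hx1 hy1
    set tx := tip n (fold δ x) with htxd
    set ty := tip n (fold δ y) with htyd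
    have e1 : refl (px δ) x x = px δ x := by unfold refl; rw [if_pos le_rfl]
    have e2 : px δ x ≤ refl (px δ) x tx := by
      have h := hsx.2.1
      have h' := hsx.2.2
      rcases le_or_gt x tx with h5 | h5
      · have := h x h5
        rwa [e1] at this
      · have := h' x h5 (by omega)
        rw [e1] at this
        exact this.le
    rw [e1] at hdep
    have hK2 : (2 * (refl (px δ) x tx - px δ x + θ) : ℤ) ≤ a := by
      have h5 : (refl (px δ) x tx - px δ x).toNat + 1 ≤ K * θ := hdep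
      have h6 : ((refl (px δ) x tx - px δ x).toNat : ℤ) = refl (px δ) x tx - px δ x :=
        Int.toNat_of_nonneg (by omega)
      have h7 : 2 * ((refl (px δ) x tx - px δ x).toNat + θ) ≤ a := by
        calc 2 * ((refl (px δ) x tx - px δ x).toNat + θ) ≤ 2 * (K * θ + θ) := by omega
          _ = 2 * (K + 1) * θ := by ring
          _ ≤ a := ha
      have h8 : ((2 * ((refl (px δ) x tx - px δ x).toNat + θ) : ℕ) : ℤ) ≤ (a : ℤ) := by
        exact_mod_cast h7
      push_cast at h8
      rw [← h6]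
      exact_mod_cast h8
    obtain ⟨c1, c2⟩ := hCl (px δ) (py δ) n x y R θ hN (px_zero δ) hxy hyn hR hL hx1.2 hy1.2 tx ty
      hsx hsy htx hty hx4 hy4 hx3 hy3 (by omega)
      (by have : (a : ℤ) ≤ dA R (refl (px δ) x) tx := by exact_mod_cast hPx2
          omega)
      (by have : (a : ℤ) ≤ dB R (refl (px δ) y) n ty := by exact_mod_cast hPy4
          omega) hθ
    refine ⟨?_, ?_, ?_, ?_⟩
    · rw [mem_Far, mem_SAWs_iff, length_fold', length_fold', px_fold, px_fold, py_fold, py_fold]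
      refine ⟨⟨hlen, c1⟩, ?_⟩
      rw [refl_refl_end _ hxy hyn]
      rw [refl_end _ hyn] at hy3
      have h5 := (abs_le.1 hy3).2
      have h6 := dA_le R (refl (px δ) x) tx
      have h7 : (a : ℤ) ≤ refl (px δ) x tx - R := by
        have : a ≤ (refl (px δ) x tx - R).toNat := hPx2.trans h6
        omega
      omega
    · rw [px_fold, px_fold]
      exact rtog_refl2 _ hxy hR
    · rw [px_fold, px_fold]
      exact ltog_refl2 _ hxy hL
    · unfold dep
      rw [px_fold, px_fold, ← htxd, ← htyd, e1]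
      have e3 : refl (px δ) y x = px δ x := by unfold refl; rw [if_pos hxy.le]
      rw [e3]
      omega

/-- the abstract count with the roles of the two types of toggles exchanged -/
theorem abstract_rev (hAbs : AbstractS) (n : ℕ) (f : List St → ℕ → List St)
    (hinv : ∀ a t, f (f a t) t = a) (hcom : ∀ a s t, f (f a s) t = f (f a t) s)
    (RT LT : List St → ℕ → Prop) (dep : List St → ℕ → ℕ) (F C : Finset (List St)) (K θ : ℕ)
    (hθ : 1 ≤ θ) (hK : 8 * (n + 1) ≤ 2 ^ K) (v : List St → ℕ)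
    (hv : ∀ P ∈ C, v P ≤ n ∧ f P (v P) ∈ F ∧ RT (f P (v P)) (v P) ∧ LT (f P (v P)) (v P) ∧
      dep P (v P) = 0)
    (hcl : ∀ δ ∈ F, ∀ x y, x < y → y ≤ n → RT δ x → LT δ y → f δ x ∈ C → f δ y ∈ C →
      dep (f δ y) y < K * θ →
      f (f δ x) y ∈ F ∧ RT (f (f δ x) y) x ∧ LT (f (f δ x) y) y ∧
        dep (f δ x) y ≤ dep (f δ y) y + θ) :
    (C.card : ℝ) ≤ (3 + 16 / 3 * Real.log (n + 1)) * F.card := by
  refine hAbs n (fun a t => f a (n - t)) (fun a t => hinv a _) (fun a s t => hcom a _ _)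
    (fun a t => LT a (n - t)) (fun a t => RT a (n - t)) (fun a t => dep a (n - t)) F C K θ hθ hK
    (fun a => n - v a) ?_ ?_
  · intro P hP
    obtain ⟨h1, h2, h3, h4, h5⟩ := hv P hP
    have e : n - (n - v P) = v P := by omega
    simp only [e]
    exact ⟨by omega, h2, h4, h3, h5⟩
  · intro δ hδ x y hxy hyn hL hR hPy hPx hdep
    obtain ⟨c1, c2, c3, c4⟩ := hcl δ hδ (n - y) (n - x) (by omega) (by omega) hR hL hPx hPy hdep
    rw [hcom δ (n - x) (n - y)]
    exact ⟨c1, c3, c2, c4⟩

theorem cardB (hAbs : AbstractS) (hCl : ClassBS) : CardBS := by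
  intro n M R a θ K hM hθ hK ha
  refine abstract_rev hAbs n fold fold_fold' fold_comm (fun l t => RTog (px l) t)
    (fun l t => LTog (px l) n t)
    (dep n) (Far n M) (clsB n M R a θ) K θ hθ hK (tip n) ?_ ?_
  · intro P hP
    rw [mem_clsB] at hP
    obtain ⟨h1, h2, h3⟩ := unfold_tip (by omega : R ≤ M) hP.1
    refine ⟨(tip_spec n P).1, h1, h2, h3, ?_⟩
    unfold dep
    simp
  · intro δ hδ x y hxy hyn hR hL hPx hPy hdep
    rw [mem_clsB] at hPx hPy
    obtain ⟨hPx1, hPx2, hPx3, hPx4⟩ := hPx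
    obtain ⟨hPy1, hPy2, hPy3, hPy4⟩ := hPy
    have hMpos : 1 ≤ M := by omega
    have htx := tip_pos hMpos hPx1
    have hty := tip_pos hMpos hPy1
    have hsx := tip_spec n (fold δ x)
    have hsy := tip_spec n (fold δ y)
    rw [mem_NearP] at hPx1 hPy1
    obtain ⟨hx1, hx2, hx3, hx4⟩ := hPx1
    obtain ⟨hy1, hy2, hy3, hy4⟩ := hPy1
    rw [mem_Far] at hδ
    have hN := NN_of_mem hδ.1
    have hlen := (mem_SAWs_iff.1 hδ.1).1
    rw [mem_SAWs_iff] at hx1 hy1
    unfold DB at hPx2 hPx3 hPy2 hPy3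
    unfold DA at hPx4 hPy4
    unfold dep at hdep
    rw [px_fold] at hsx hsy hx2 hx3 hy2 hy3 hPx2 hPx3 hPy2 hPy3 hPx4 hPy4 hdep
    rw [py_fold] at hx4 hy4
    rw [px_fold, py_fold] at hx1 hy1
    set tx := tip n (fold δ x) with htxd
    set ty := tip n (fold δ y) with htyd
    have e1 : refl (px δ) y y = px δ y := by unfold refl; rw [if_pos le_rfl]
    have e2 : px δ y ≤ refl (px δ) y ty := by
      have h := hsy.2.1
      have h' := hsy.2.2
      rcases le_or_gt y ty with h5 | h5
      · have := h y h5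
        rwa [e1] at this
      · have := h' y h5 (by omega)
        rw [e1] at this
        exact this.le
    rw [e1] at hdep
    have hK2 : (2 * (refl (px δ) y ty - px δ y + θ) : ℤ) ≤ a := by
      have h5 : (refl (px δ) y ty - px δ y).toNat + 1 ≤ K * θ := hdep
      have h6 : ((refl (px δ) y ty - px δ y).toNat : ℤ) = refl (px δ) y ty - px δ y :=
        Int.toNat_of_nonneg (by omega)
      have h7 : 2 * ((refl (px δ) y ty - px δ y).toNat + θ) ≤ a := by
        calc 2 * ((refl (px δ) y ty - px δ y).toNat + θ) ≤ 2 * (K * θ + θ) := by omega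
          _ = 2 * (K + 1) * θ := by ring
          _ ≤ a := ha
      have h8 : ((2 * ((refl (px δ) y ty - px δ y).toNat + θ) : ℕ) : ℤ) ≤ (a : ℤ) := by
        exact_mod_cast h7
      push_cast at h8
      rw [← h6]
      exact_mod_cast h8
    obtain ⟨c1, c2⟩ := hCl (px δ) (py δ) n x y R θ hN (px_zero δ) hxy hyn hR hL hx1.2 hy1.2 tx ty
      hsx hsy htx hty hx4 hy4 hx3 hy3 (by omega)
      (by have : (a : ℤ) ≤ dB R (refl (px δ) y) n ty := by exact_mod_cast hPy2
          omega)
      (by have : (a : ℤ) ≤ dA R (refl (px δ) x) tx := by exact_mod_cast hPx4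
          omega) hθ
    have e3 : refl (px δ) x y = 2 * px δ x - px δ y := by unfold refl; rw [if_neg (by omega)]
    refine ⟨?_, ?_, ?_, ?_⟩
    · rw [mem_Far, mem_SAWs_iff, length_fold', length_fold', px_fold, px_fold, py_fold, py_fold]
      refine ⟨⟨hlen, c1⟩, ?_⟩
      rw [refl_refl_end _ hxy hyn]
      rw [refl_end _ (by omega)] at hx3
      have h5 := (abs_le.1 hx3).2
      have h6 := dA_le R (refl (px δ) x) tx
      have h7 : (a : ℤ) ≤ refl (px δ) x tx - R := by
        have : a ≤ (refl (px δ) x tx - R).toNat := hPx4.trans h6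
        omega
      omega
    · rw [px_fold, px_fold]
      exact rtog_refl2 _ hxy hR
    · rw [px_fold, px_fold]
      exact ltog_refl2 _ hxy hL
    · unfold dep
      rw [px_fold, px_fold, ← htxd, ← htyd, e1, e3]
      omega

end Pool.Agent.Helper54.SAW2
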