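import Pool.Agent.Helper54.SAW.Defs

set_option autoImplicit false

/-!
# Planar self-avoiding walks, second part (double folding): definitions

A path is given by its coordinate functions `x y : ℕ → ℤ` (time `≤ n`).
-/

namespace Pool.Agent.Helper54.SAW2

open Pool.Agent.Helper54.SAW

/-- the step from time `i` to time `i + 1` is a nearest neighbour step -/
def Stp (x y : ℕ → ℤ) (i : ℕ) : Prop :=
  (x (i + 1) = x i ∧ (y (i + 1) = y i + 1 ∨ y (i + 1) = y i - 1)) ∨
  (y (i + 1) = y i ∧ (x (i + 1) = x i + 1 ∨ x (i + 1) = x i - 1))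

/-- nearest neighbour path of length `n` -/
def NN (x y : ℕ → ℤ) (n : ℕ) : Prop := ∀ i, i < n → Stp x y i

/-- the path of length `n` is self-avoiding -/
def Avoid (x y : ℕ → ℤ) (n : ℕ) : Prop := ∀ i j, i < j → j ≤ n → ¬ (x i = x j ∧ y i = y j)

/-- reflection of the first coordinate after time `t` -/
def refl (x : ℕ → ℤ) (t : ℕ) : ℕ → ℤ := fun i => if i ≤ t then x i else 2 * x t - x i

/-- `t` is the last time at which the maximum of `x` on `[0, n]` is attained -/
def Tip (x : ℕ → ℤ) (n t : ℕ) : Prop :=
  t ≤ n ∧ (∀ i, i ≤ t → x i ≤ x t) ∧ (∀ i, t < i → i ≤ n → x i < x t)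

/-- `t` is a (weak) running maximum -/
def RTog (x : ℕ → ℤ) (t : ℕ) : Prop := ∀ i, i ≤ t → x i ≤ x t

/-- after time `t` the path stays strictly to the right of its position at time `t` -/
def LTog (x : ℕ → ℤ) (n t : ℕ) : Prop := ∀ i, t < i → i ≤ n → x t < x i

/-- the part `[0, t]` of the path crosses from column `c` to column `c + 1` exactly once -/
def CutA (x : ℕ → ℤ) (t : ℕ) (c : ℤ) : Prop :=
  ∃ s, s < t ∧ (∀ i, i ≤ s → x i ≤ c) ∧ (∀ i, s < i → i ≤ t → c < x i)

/-- the part `[t, n]` of the path crosses from column `c + 1` to column `c` exactly once -/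
def CutB (x : ℕ → ℤ) (n t : ℕ) (c : ℤ) : Prop :=
  ∃ s, t ≤ s ∧ s < n ∧ (∀ i, t ≤ i → i ≤ s → c < x i) ∧ (∀ i, s < i → i ≤ n → x i ≤ c)

open Classical in
/-- distance from the tip `t` to the first column `≥ c0` crossed exactly once by `[0, t]`
(`0` if there is none) -/
noncomputable def dA (c0 : ℕ) (x : ℕ → ℤ) (t : ℕ) : ℕ :=
  Nat.findGreatest (fun d => CutA x t (x t - d)) (x t - c0).toNat

open Classical in
/-- distance from the tip `t` to the first column `≥ x n + c0` crossed exactly once by `[t, n]`
(`0` if there is none) -/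
noncomputable def dB (c0 : ℕ) (x : ℕ → ℤ) (n t : ℕ) : ℕ :=
  Nat.findGreatest (fun d => CutB x n t (x t - d)) (x t - x n - c0).toNat

open Classical in
/-- number of horizontal steps of the part `[i0, i1]` of the path between the columns `c` and
`c + 1` at height above `h` -/
noncomputable def hc (x y : ℕ → ℤ) (i0 i1 : ℕ) (c h : ℤ) : ℕ :=
  ((Finset.Ico i0 i1).filter (fun i => y (i + 1) = y i ∧ h < y i ∧
    ((x i = c ∧ x (i + 1) = c + 1) ∨ (x i = c + 1 ∧ x (i + 1) = c)))).card

/-- first coordinate at time `i` -/
def px (l : List St) (i : ℕ) : ℤ := X (l.take i)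

/-- second coordinate at time `i` -/
def py (l : List St) (i : ℕ) : ℤ := Y (l.take i)

open Classical in
/-- the last time at which the maximum of `px l` on `[0, n]` is attained -/
noncomputable def tip (n : ℕ) (l : List St) : ℕ :=
  Nat.findGreatest (fun t => ∀ i, i ≤ n → px l i ≤ px l t) n

/-- distance between the column of the tip and the column at time `t` -/
noncomputable def dep (n : ℕ) (l : List St) (t : ℕ) : ℕ := (px l (tip n l) - px l t).toNat

open Classical in
/-- near walks of positive sign: the maximal first coordinate is at least `M`, the endpoint is at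
horizontal distance at most `R`, and the step before the tip is a down step -/
noncomputable def NearP (n M R : ℕ) : Finset (List St) :=
  (SAWs n).filter (fun l => (M : ℤ) ≤ px l (tip n l) ∧ |px l n| ≤ R ∧
    py l (tip n l - 1) = py l (tip n l) + 1)

/-- the A-depth of a near walk -/
noncomputable def DA (n R : ℕ) (l : List St) : ℕ := dA R (px l) (tip n l)

/-- the B-depth of a near walk -/
noncomputable def DB (n R : ℕ) (l : List St) : ℕ := dB R (px l) n (tip n l)

open Classical in
/-- A-class -/
noncomputable def clsA (n M R a θ : ℕ) : Finset (List St) :=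
  (NearP n M R).filter (fun l => a ≤ DA n R l ∧ DA n R l < a + θ ∧ a ≤ DB n R l)

open Classical in
/-- B-class -/
noncomputable def clsB (n M R a θ : ℕ) : Finset (List St) :=
  (NearP n M R).filter (fun l => a ≤ DB n R l ∧ DB n R l < a + θ ∧ a ≤ DA n R l)

end Pool.Agent.Helper54.SAW2
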