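import Pool.Agent.Helper54.SAW2.Stmts

set_option autoImplicit false

namespace Pool.Agent.Helper54.SAW2

open Pool.Agent.Helper54.SAW Finset

/-- the bound on lists of steps gives the bound in the form of frozen statement S19503 -/
theorem finalForm (hF : FinalS) : ∃ c : ℝ, 0 < c ∧ ∀ n : ℕ, 2 ≤ n →
    c * ((n : ℝ) / (Real.log n) ^ 3) ≤
      (∑ s ∈ Finset.univ.filter (fun s : Fin n → Fin 2 × Bool =>
            ∀ k l : Fin (n + 1),
              (fun i : Fin 2 => ∑ j : Fin n,
                  if j.val < k.val ∧ (s j).1 = i then (if (s j).2 then (1 : ℤ) else -1) else 0)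
                = (fun i : Fin 2 => ∑ j : Fin n,
                  if j.val < l.val ∧ (s j).1 = i then (if (s j).2 then (1 : ℤ) else -1) else 0)
              → k = l),
          ∑ i : Fin 2,
            (∑ j : Fin n, if (s j).1 = i then (if (s j).2 then (1 : ℝ) else -1) else 0) ^ 2)
        / ((Finset.univ.filter (fun s : Fin n → Fin 2 × Bool =>
            ∀ k l : Fin (n + 1),
              (fun i : Fin 2 => ∑ j : Fin n,
                  if j.val < k.val ∧ (s j).1 = i then (if (s j).2 then (1 : ℤ) else -1) else 0)
                = (fun i : Fin 2 => ∑ j : Fin n,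
                  if j.val < l.val ∧ (s j).1 = i then (if (s j).2 then (1 : ℤ) else -1) else 0)
              → k = l)).card : ℝ) := by
  obtain ⟨c, hc, h⟩ := hF
  refine ⟨c, hc, ?_⟩
  intro n hn
  set Φ := Finset.univ.filter (fun s : Fin n → Fin 2 × Bool =>
            ∀ k l : Fin (n + 1),
              (fun i : Fin 2 => ∑ j : Fin n,
                  if j.val < k.val ∧ (s j).1 = i then (if (s j).2 then (1 : ℤ) else -1) else 0)
                = (fun i : Fin 2 => ∑ j : Fin n,
                  if j.val < l.val ∧ (s j).1 = i then (if (s j).2 then (1 : ℤ) else -1) else 0)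
              → k = l) with hΦ
  have hmem : ∀ s : Fin n → St, s ∈ Φ ↔ Saw (List.ofFn s) := by
    intro s
    rw [hΦ, mem_filter, saw_ofFn]
    simp
  have himg : SAWs n = Φ.image List.ofFn := by
    ext l
    rw [Pool.Agent.Helper54.SAW.mem_SAWs, mem_image]
    constructor
    · rintro ⟨rfl, hl⟩
      exact ⟨l.get, by rw [hmem, List.ofFn_get]; exact hl, List.ofFn_get l⟩
    · rintro ⟨s, hs, rfl⟩
      exact ⟨List.length_ofFn, (hmem s).1 hs⟩
  have hcard : (SAWs n).card = Φ.card := by
    rw [himg, card_image_of_injective _ List.ofFn_injective]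
  have hsum : ∑ l ∈ SAWs n, ((X l : ℝ) ^ 2 + (Y l : ℝ) ^ 2) = ∑ s ∈ Φ, ∑ i : Fin 2,
            (∑ j : Fin n, if (s j).1 = i then (if (s j).2 then (1 : ℝ) else -1) else 0) ^ 2 := by
    rw [himg, sum_image (List.ofFn_injective.injOn)]
    apply sum_congr rfl
    intro s _
    rw [Fin.sum_univ_two, X_ofFn, Y_ofFn]
    push_cast
    rfl
  have hpos : (0 : ℝ) < Φ.card := by
    rw [← hcard]
    have : (SAWs n).Nonempty := by
      refine ⟨List.replicate n ((0 : Fin 2), true), ?_⟩
      rw [Pool.Agent.Helper54.SAW.mem_SAWs]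
      refine ⟨by simp, ?_⟩
      intro u v t huvt hv h0
      have hv' : v = List.replicate v.length ((0 : Fin 2), true) := by
        rw [List.eq_replicate_iff]
        refine ⟨rfl, fun x hx => ?_⟩
        have : x ∈ List.replicate n ((0 : Fin 2), true) := by
          rw [huvt]; simp [hx]
        exact List.eq_of_mem_replicate this
      have h1 := h0.1
      rw [hv'] at h1
      simp [X, dx] at h1
      exact hv h1
    exact_mod_cast card_pos.2 this
  rw [le_div_iff₀ hpos, ← hsum, ← hcard]
  exact h n hn

end Pool.Agent.Helper54.SAW2
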