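import Pool.Agent.Helper54.SAW2.Card
import Pool.Agent.Helper54.SAW2.FinalForm
import Pool.Agent.Helper68.SAW2.Parity
import Pool.Agent.Helper1.SAW2.Sig
import Pool.Agent.Helper42.SAW2.Closure
import Pool.Agent.Helper40.SAW2.Kappa
import Pool.Agent.Helper9.SAW2.Class
import Pool.Agent.Helper16.SAW2.Inj
import Pool.Agent.Helper26.SAW2.Abstract
import Pool.Agent.Helper55.SAW2.Small
import Pool.Agent.Helper47.SAW2.Cover
import Pool.Agent.Helper99.SAW2.Near
import Pool.Agent.Helper48.SAW2.FinalB

set_option autoImplicit false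

namespace Pool.Agent.Helper54.SAW2

theorem closureS : ClosureS :=
  Pool.Agent.Helper42.SAW2.closure Pool.Agent.Helper68.SAW2.transport
    Pool.Agent.Helper68.SAW2.transportR
    (Pool.Agent.Helper1.SAW2.sigA Pool.Agent.Helper68.SAW2.transport)
    (Pool.Agent.Helper1.SAW2.sigB Pool.Agent.Helper68.SAW2.hcCol
      Pool.Agent.Helper68.SAW2.transportR)

theorem classAS : ClassAS :=
  Pool.Agent.Helper9.SAW2.classA Pool.Agent.Helper40.SAW2.kappaA closureS

theorem classBS : ClassBS :=
  Pool.Agent.Helper9.SAW2.classB Pool.Agent.Helper40.SAW2.kappaB closureS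

theorem coverS : CoverS :=
  Pool.Agent.Helper47.SAW2.cover (cardA Pool.Agent.Helper26.SAW2.abstractS classAS)
    (cardB Pool.Agent.Helper26.SAW2.abstractS classBS)
    (Pool.Agent.Helper55.SAW2.smallA Pool.Agent.Helper16.SAW2.injA)
    (Pool.Agent.Helper55.SAW2.smallB Pool.Agent.Helper16.SAW2.injB)

theorem finalS : FinalS := Pool.Agent.Helper48.SAW2.final coverS Pool.Agent.Helper99.SAW2.near

end Pool.Agent.Helper54.SAW2
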