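import Pool.Agent.Helper54.SAW2.Basics

set_option autoImplicit false

/-!
# Statements of the blocks
-/

namespace Pool.Agent.Helper54.SAW2

open Pool.Agent.Helper54.SAW

/-- block 1 -/
def HcColS : Prop := ∀ (x y : ℕ → ℤ) (i0 i1 : ℕ), i0 ≤ i1 →
  (∀ i, i0 ≤ i → i < i1 → Stp x y i) → ∀ (c h : ℤ),
  (∀ i, i0 ≤ i → i ≤ i1 → ¬ (x i = c + 1 ∧ y i = h)) →
  (hc x y i0 i1 c h + hc x y i0 i1 (c + 1) h + (if x i0 = c + 1 ∧ h < y i0 then 1 else 0)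
      + (if x i1 = c + 1 ∧ h < y i1 then 1 else 0)) % 2 = 0

/-- block 1 -/
def TransportS : Prop := ∀ (x y : ℕ → ℤ) (i0 i1 : ℕ), i0 ≤ i1 →
  (∀ i, i0 ≤ i → i < i1 → Stp x y i) → ∀ (u v : ℕ → ℤ) (j0 j1 : ℕ), j0 ≤ j1 →
  (∀ j, j0 ≤ j → j < j1 → Stp u v j) → ∀ (lo hi : ℤ),
  (∀ j, j0 ≤ j → j ≤ j1 → lo < u j ∧ u j ≤ hi) →
  (x i0 ≤ lo ∨ hi ≤ x i0) → (x i1 ≤ lo ∨ hi ≤ x i1) →
  (∀ i j, i0 ≤ i → i ≤ i1 → j0 ≤ j → j ≤ j1 → ¬ (x i = u j ∧ y i = v j)) →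
  hc x y i0 i1 (u j0 - 1) (v j0) % 2 = hc x y i0 i1 (u j1 - 1) (v j1) % 2

/-- block 1 -/
def TransportRS : Prop := ∀ (x y : ℕ → ℤ) (i0 i1 : ℕ), i0 ≤ i1 →
  (∀ i, i0 ≤ i → i < i1 → Stp x y i) → ∀ (u v : ℕ → ℤ) (j0 j1 : ℕ), j0 ≤ j1 →
  (∀ j, j0 ≤ j → j < j1 → Stp u v j) → ∀ (lo hi : ℤ),
  (∀ j, j0 ≤ j → j ≤ j1 → lo ≤ u j ∧ u j < hi) →
  (x i0 ≤ lo ∨ hi ≤ x i0) → (x i1 ≤ lo ∨ hi ≤ x i1) →
  (∀ i j, i0 ≤ i → i ≤ i1 → j0 ≤ j → j ≤ j1 → ¬ (x i = u j ∧ y i = v j)) →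
  hc x y i0 i1 (u j0) (v j0) % 2 = hc x y i0 i1 (u j1) (v j1) % 2

/-- block 2 -/
def SigAS : Prop := ∀ (x y : ℕ → ℤ) (n t : ℕ), NN x y n → Avoid x y n → Tip x n t →
  0 < t → y (t - 1) = y t + 1 → ∀ (c : ℤ) (s : ℕ), s < t →
  (∀ i, i ≤ s → x i ≤ c) → (∀ i, s < i → i ≤ t → c < x i) → x n ≤ c →
  hc x y t n c (y s) % 2 = 0

/-- block 2 -/
def SigBS : Prop := ∀ (x y : ℕ → ℤ) (n t : ℕ), NN x y n → Avoid x y n → Tip x n t →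
  0 < t → y (t - 1) = y t + 1 → ∀ (c : ℤ) (s : ℕ), t ≤ s → s < n →
  (∀ i, t ≤ i → i ≤ s → c < x i) → (∀ i, s < i → i ≤ n → x i ≤ c) → x 0 ≤ c →
  hc x y 0 t c (y s) % 2 = 1

/-- block 3 -/
def ClosureS : Prop := ∀ (x y : ℕ → ℤ) (n p q : ℕ), NN x y n → p < q → q ≤ n →
  RTog x p → LTog x n q → Avoid (refl x p) y n → Avoid (refl x q) y n →
  ∀ (tp tq : ℕ), Tip (refl x p) n tp → Tip (refl x q) n tq → 0 < tp → 0 < tq →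
  y (tp - 1) = y tp + 1 → y (tq - 1) = y tq + 1 → ∀ (c c' : ℤ),
  x 0 ≤ c → refl x p n ≤ c → c ≤ 2 * x p - x q → CutA (refl x p) tp c →
  x 0 ≤ c' → refl x q n ≤ c' → c' < x p → CutB (refl x q) n tq c' →
  Avoid (refl (refl x p) q) y n

/-- block 4 -/
def KappaAS : Prop := ∀ (x : ℕ → ℤ) (n p q c0 : ℕ), p < q → q ≤ n → RTog x p → LTog x n q →
  ∀ (tp tq : ℕ), Tip (refl x p) n tp → Tip (refl x q) n tq →
  2 * (refl x p tp - x p) < dA c0 (refl x p) tp →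
  refl x p tp - dA c0 (refl x p) tp = refl x q tq - dA c0 (refl x q) tq

/-- block 4 -/
def KappaBS : Prop := ∀ (x : ℕ → ℤ) (n p q c0 : ℕ), p < q → q ≤ n → RTog x p → LTog x n q →
  ∀ (tp tq : ℕ), Tip (refl x p) n tp → Tip (refl x q) n tq →
  2 * (refl x q tq - x q) < dB c0 (refl x q) n tq →
  refl x p tp - refl x p n - dB c0 (refl x p) n tp =
      refl x q tq - refl x q n - dB c0 (refl x q) n tq

/-- block 5 -/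
def ClassAS : Prop := ∀ (x y : ℕ → ℤ) (n p q c0 θ : ℕ), NN x y n → x 0 = 0 → p < q →
  q ≤ n → RTog x p → LTog x n q → Avoid (refl x p) y n → Avoid (refl x q) y n →
  ∀ (tp tq : ℕ), Tip (refl x p) n tp → Tip (refl x q) n tq → 0 < tp → 0 < tq →
  y (tp - 1) = y tp + 1 → y (tq - 1) = y tq + 1 →
  |refl x p n| ≤ c0 → |refl x q n| ≤ c0 →
  dA c0 (refl x q) tq < dA c0 (refl x p) tp + θ →
  2 * (refl x p tp - x p + θ) ≤ dA c0 (refl x p) tp →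
  2 * (refl x p tp - x p + θ) ≤ dB c0 (refl x q) n tq → 1 ≤ θ →
  Avoid (refl (refl x p) q) y n ∧ refl x q tq - x p ≤ refl x p tp - x p + θ

/-- block 5 -/
def ClassBS : Prop := ∀ (x y : ℕ → ℤ) (n p q c0 θ : ℕ), NN x y n → x 0 = 0 → p < q →
  q ≤ n → RTog x p → LTog x n q → Avoid (refl x p) y n → Avoid (refl x q) y n →
  ∀ (tp tq : ℕ), Tip (refl x p) n tp → Tip (refl x q) n tq → 0 < tp → 0 < tq →
  y (tp - 1) = y tp + 1 → y (tq - 1) = y tq + 1 →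
  |refl x p n| ≤ c0 → |refl x q n| ≤ c0 →
  dB c0 (refl x p) n tp < dB c0 (refl x q) n tq + θ →
  2 * (refl x q tq - x q + θ) ≤ dB c0 (refl x q) n tq →
  2 * (refl x q tq - x q + θ) ≤ dA c0 (refl x p) tp → 1 ≤ θ →
  Avoid (refl (refl x p) q) y n ∧
      refl x p tp - (2 * x p - x q) ≤ refl x q tq - x q + θ

/-- block 6 -/
def InjAS : Prop := ∀ (x : ℕ → ℤ) (n s t c0 : ℕ), s < t → t ≤ n → RTog x s → LTog x n s →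
  RTog x t → LTog x n t → (c0 : ℤ) ≤ x s → dA c0 (refl x s) s < dA c0 (refl x t) t

/-- block 6 -/
def InjBS : Prop := ∀ (x : ℕ → ℤ) (n s t c0 : ℕ), s < t → t ≤ n → RTog x s → LTog x n s →
  RTog x t → LTog x n t → (c0 : ℤ) < x n - x t → dB c0 (refl x t) n t < dB c0 (refl x s) n s

/-- block 7 -/
def AbstractS : Prop := ∀ (n : ℕ) (f : List St → ℕ → List St),
  (∀ a t, f (f a t) t = a) → (∀ a s t, f (f a s) t = f (f a t) s) →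
  ∀ (RT LT : List St → ℕ → Prop) (dep : List St → ℕ → ℕ) (F C : Finset (List St)) (K θ : ℕ),
  1 ≤ θ → 8 * (n + 1) ≤ 2 ^ K → ∀ (v : List St → ℕ),
  (∀ P ∈ C, v P ≤ n ∧ f P (v P) ∈ F ∧ RT (f P (v P)) (v P) ∧ LT (f P (v P)) (v P) ∧
      dep P (v P) = 0) →
  (∀ δ ∈ F, ∀ x y, x < y → y ≤ n → RT δ x → LT δ y → f δ x ∈ C → f δ y ∈ C →
      dep (f δ x) x < K * θ →
      f (f δ x) y ∈ F ∧ RT (f (f δ x) y) x ∧ LT (f (f δ x) y) y ∧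
        dep (f δ y) x ≤ dep (f δ x) x + θ) →
  (C.card : ℝ) ≤ (3 + 16 / 3 * Real.log (n + 1)) * F.card

/-- block 8 -/
def CardAS : Prop := ∀ (n M R a θ K : ℕ), 2 * R + 1 ≤ M → 1 ≤ θ → 8 * (n + 1) ≤ 2 ^ K →
  2 * (K + 1) * θ ≤ a →
  ((clsA n M R a θ).card : ℝ) ≤ (3 + 16 / 3 * Real.log (n + 1)) * (Far n M).card

/-- block 8 -/
def CardBS : Prop := ∀ (n M R a θ K : ℕ), 2 * R + 1 ≤ M → 1 ≤ θ → 8 * (n + 1) ≤ 2 ^ K →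
  2 * (K + 1) * θ ≤ a →
  ((clsB n M R a θ).card : ℝ) ≤ (3 + 16 / 3 * Real.log (n + 1)) * (Far n M).card

open Classical in
/-- block 9 -/
def SmallAS : Prop := ∀ (n M R Λ : ℕ), 2 * R + 1 ≤ M →
  ((NearP n M R).filter (fun l => DA n R l < Λ)).card ≤ Λ * (Far n M).card

open Classical in
/-- block 9 -/
def SmallBS : Prop := ∀ (n M R Λ : ℕ), 2 * R + 1 ≤ M →
  ((NearP n M R).filter (fun l => DB n R l < Λ)).card ≤ Λ * (Far n M).card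

/-- block 10 -/
def CoverS : Prop := ∃ C : ℝ, 0 < C ∧ ∀ n M R : ℕ, 2 ≤ n → 2 * R + 1 ≤ M →
  ((NearP n M R).card : ℝ) ≤ C * (Real.log n) ^ 3 * (Far n M).card

/-- block 11 -/
def NearS : Prop := ∀ n M R : ℕ, 2 * R + 1 ≤ M → (Near n M R).card ≤ 2 * (NearP n M R).card

/-- block 12 -/
def FinalS : Prop := ∃ c : ℝ, 0 < c ∧ ∀ n : ℕ, 2 ≤ n →
  c * ((n : ℝ) / (Real.log n) ^ 3) * ((SAWs n).card : ℝ)
    ≤ ∑ l ∈ SAWs n, ((X l : ℝ) ^ 2 + (Y l : ℝ) ^ 2)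

end Pool.Agent.Helper54.SAW2
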